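import Pool.Agent.KGen.Main

set_option autoImplicit false

namespace Pool.Agent.Results.MP_cb9a17_ag.PolynomialGeneral

open Pool.Agent.KReg

/-- For all `k`, `n` and all `N ≥ (n + 1) (k - 1) + 1` there is a polynomial `k`-regular map
`ℂ^n → ℂ^N`. -/
theorem result (k n N : ℕ) (hN : (n + 1) * (k - 1) + 1 ≤ N) :
    ∃ f : (Fin n → ℂ) → (Fin N → ℂ), IsPolynomialMap n N f ∧ IsKRegular k n N f :=
  Pool.Agent.KGen.exists_general k n N hN

end Pool.Agent.Results.MP_cb9a17_ag.PolynomialGeneral
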