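import Pool.Agent.KRL.Main

set_option autoImplicit false

namespace Pool.Agent.Results.MP_cb9a17_ag.PolynomialLowerBound

open Pool.Agent.KReg

/-- A polynomial `k`-regular map `ℂ^n → ℂ^N` exists only if `n (k - 1) + 1 ≤ N`, for all
`k, n ≥ 1`. -/
theorem result (k n N : ℕ) (hk : 1 ≤ k) (hn : 1 ≤ n) (f : (Fin n → ℂ) → (Fin N → ℂ))
    (hpol : IsPolynomialMap n N f) (hreg : IsKRegular k n N f) : n * (k - 1) + 1 ≤ N :=
  Pool.Agent.KRL.lower_bound hk hn hpol hreg

end Pool.Agent.Results.MP_cb9a17_ag.PolynomialLowerBound
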