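import Pool.Agent.KReg.Final

set_option autoImplicit false

namespace Pool.Agent.Results.MP_cb9a17_ag.PolynomialUpToFive

open Pool.Agent.KReg

/-- For `1 ≤ k ≤ 5`, `n ≥ 1` and `N ≥ n (k - 1) + 1` there is a polynomial `k`-regular map
`ℂ^n → ℂ^N`. -/
theorem result (k n N : ℕ) (hk : 1 ≤ k) (hk5 : k ≤ 5) (hn : 1 ≤ n) (hN : n * (k - 1) + 1 ≤ N) :
    ∃ f : (Fin n → ℂ) → (Fin N → ℂ), IsPolynomialMap n N f ∧ IsKRegular k n N f := by
  interval_cases k
  · exact exists_one n N (by omega)
  · exact exists_two n N (by omega)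
  · exact exists_three n N (by omega)
  · exact exists_four n N hn (by omega)
  · exact exists_five n N hn (by omega)

end Pool.Agent.Results.MP_cb9a17_ag.PolynomialUpToFive
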